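import Pool.Agent.Lib.MP_39c2b7_co.Interfaces

/-!
# Strong arboricity, module WFC: soundness of the consistency check
-/

set_option autoImplicit false

namespace StrongArb.H19

lemma nat_beq_iff (a b : ℕ) : Nat.beq a b = true ↔ a = b := by
  constructor
  · exact Nat.eq_of_beq_eq_true
  · rintro rfl
    exact Nat.beq_refl a

lemma memB_iff (l : List ℕ) (a : ℕ) : memB l a = true ↔ a ∈ l := by
  unfold memB
  rw [List.any_eq_true]
  constructor
  · rintro ⟨x, hx, h⟩
    rw [nat_beq_iff] at h
    exact h ▸ hx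
  · intro h
    exact ⟨a, h, (nat_beq_iff a a).2 rfl⟩

lemma nodupB_iff (l : List ℕ) : nodupB l = true ↔ l.Nodup := by
  induction l with
  | nil => simp [nodupB]
  | cons a t ih =>
    rw [nodupB, Bool.and_eq_true, ih, List.nodup_cons, Bool.not_eq_true', ← Bool.not_eq_true,
      memB_iff]

lemma consB_iff (l : List ℕ) (a b : ℕ) : consB l a b = true ↔ ConsIn l a b := by
  unfold consB ConsIn CycAdj
  rw [List.any_eq_true]
  constructor
  · rintro ⟨q, hq, h⟩
    obtain ⟨i, hi, rfl⟩ := List.getElem_of_mem hq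
    have hi1 : i < l.length := by
      rw [List.length_zip, List.length_rotate, min_self] at hi
      exact hi
    rw [List.getElem_zip, List.getElem_rotate, Bool.or_eq_true, Bool.and_eq_true,
      Bool.and_eq_true, nat_beq_iff, nat_beq_iff, nat_beq_iff, nat_beq_iff] at h
    have hj : (i + 1) % l.length < l.length := Nat.mod_lt _ (by omega)
    rcases h with ⟨h1, h2⟩ | ⟨h1, h2⟩
    · exact ⟨i, (i + 1) % l.length, hi1, hj, h1, h2, Or.inl rfl⟩
    · exact ⟨(i + 1) % l.length, i, hj, hi1, h2, h1, Or.inr rfl⟩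
  · have key : ∀ i, ∀ hi : i < l.length, ∀ hj : (i + 1) % l.length < l.length,
        (l[i], l[(i + 1) % l.length]) ∈ l.zip (l.rotate 1) := by
      intro i hi hj
      have hz : i < (l.zip (l.rotate 1)).length := by
        rw [List.length_zip, List.length_rotate, min_self]; exact hi
      have := List.getElem_mem hz
      rw [List.getElem_zip, List.getElem_rotate] at this
      exact this
    rintro ⟨i, j, hi, hj, h1, h2, h | h⟩
    · subst h
      refine ⟨_, key i hi hj, ?_⟩
      rw [Bool.or_eq_true, Bool.and_eq_true, nat_beq_iff, nat_beq_iff]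
      exact Or.inl ⟨h1, h2⟩
    · subst h
      refine ⟨_, key j hj hi, ?_⟩
      rw [Bool.or_eq_true, Bool.and_eq_true, Bool.and_eq_true, nat_beq_iff, nat_beq_iff,
        nat_beq_iff, nat_beq_iff]
      exact Or.inr ⟨h2, h1⟩

lemma nat_ble_iff (a b : ℕ) : Nat.ble a b = true ↔ a ≤ b := by rw [Nat.ble_eq]

lemma nat_blt_iff (a b : ℕ) : Nat.blt a b = true ↔ a < b := by
  unfold Nat.blt
  rw [Nat.ble_eq]
  exact Nat.succ_le_iff

lemma kB_adj (P : Pat) (a b : ℕ) (h : P.kB a b = true) : P.K.Adj a b := by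
  unfold Pat.kB at h
  rw [Bool.and_eq_true, Bool.not_eq_true', ← Bool.not_eq_true, nat_beq_iff, List.any_eq_true] at h
  obtain ⟨hne, v, hv, h⟩ := h
  rw [List.mem_range] at hv
  rw [Bool.or_eq_true, Bool.or_eq_true, Bool.and_eq_true, Bool.and_eq_true, nat_beq_iff,
    nat_beq_iff, memB_iff, memB_iff, consB_iff] at h
  refine ⟨hne, v, hv, ?_⟩
  tauto

/-- the relation of the connectivity condition -/
def Rel (P : Pat) (β x y : ℕ) : Prop :=
  P.K.Adj x y ∧ (x < P.nI ∨ y < P.nI) ∧ P.block x = β ∧ P.block y = β ∧ x < P.N ∧ y < P.N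

lemma Rel.symm {P : Pat} {β x y : ℕ} (h : Rel P β x y) : Rel P β y x :=
  ⟨h.1.symm, h.2.1.symm, h.2.2.2.1, h.2.2.1, h.2.2.2.2.2, h.2.2.2.2.1⟩

lemma rtg_symm {P : Pat} {β x y : ℕ} (h : Relation.ReflTransGen (Rel P β) x y) :
    Relation.ReflTransGen (Rel P β) y x := by
  induction h with
  | refl => exact Relation.ReflTransGen.refl
  | tail _ h ih => exact Relation.ReflTransGen.head h.symm ih

lemma connB_sound (P : Pat) (β x₀ : ℕ) : ∀ (L seen : List ℕ), P.connB seen L = true →
    (∀ y ∈ seen, y < P.N ∧ P.block y = β ∧ Relation.ReflTransGen (Rel P β) x₀ y) →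
    (∀ y ∈ L, y < P.N ∧ P.block y = β) →
    ∀ y ∈ L, Relation.ReflTransGen (Rel P β) x₀ y := by
  intro L
  induction L with
  | nil => intro seen _ _ _ y hy; simp at hy
  | cons x t ih =>
    intro seen h hs hL y hy
    rw [Pat.connB, Bool.and_eq_true, List.any_eq_true] at h
    obtain ⟨⟨z, hz, hstep⟩, h2⟩ := h
    have hx : Relation.ReflTransGen (Rel P β) x₀ x := by
      obtain ⟨hz1, hz2, hz3⟩ := hs z hz
      refine hz3.tail ?_
      unfold Pat.stepB at hstep
      rw [Bool.and_eq_true, Bool.or_eq_true, nat_blt_iff, nat_blt_iff] at hstep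
      obtain ⟨hx1, hx2⟩ := hL x (by simp)
      exact ⟨kB_adj P z x hstep.2, hstep.1, hz2, hx2, hz1, hx1⟩
    rcases List.mem_cons.1 hy with rfl | hy
    · exact hx
    · refine ih (x :: seen) h2 ?_ (fun y hy => hL y (List.mem_cons_of_mem _ hy)) y hy
      intro w hw
      rcases List.mem_cons.1 hw with rfl | hw
      · exact ⟨(hL w (by simp)).1, (hL w (by simp)).2, hx⟩
      · exact hs w hw

/-- Module WFC. -/
theorem wfc : WFStatement := by
  intro P bl h
  unfold Pat.wfB at h
  simp only [Bool.and_eq_true] at h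
  obtain ⟨⟨⟨⟨hle, hlink⟩, hmem⟩, hbl⟩, hmerge⟩ := h
  rw [nat_ble_iff] at hle
  rw [List.all_eq_true] at hlink hmem hbl
  rw [List.any_eq_true] at hmerge
  have hl : ∀ v, v < P.nI → (∀ a ∈ P.link v, a < P.N ∧ a ≠ v ∧ (a < P.nI →
      v ∈ P.link a ∧ ∀ b ∈ P.link v, ConsIn (P.link v) a b → ConsIn (P.link a) v b)) ∧
      (P.link v).Nodup ∧ 4 ≤ (P.link v).length := by
    intro v hv
    have h0 := hlink v (List.mem_range.2 hv)
    simp only [Bool.and_eq_true] at h0
    obtain ⟨⟨h1, h2⟩, h3⟩ := h0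
    rw [nodupB_iff] at h2
    rw [nat_ble_iff] at h3
    refine ⟨fun a ha => ?_, h2, h3⟩
    rw [List.all_eq_true] at h1
    have h4 := h1 a ha
    simp only [Bool.and_eq_true, Bool.or_eq_true, Bool.not_eq_true'] at h4
    obtain ⟨⟨h5, h6⟩, h7⟩ := h4
    rw [nat_blt_iff] at h5
    rw [← Bool.not_eq_true, nat_beq_iff] at h6
    refine ⟨h5, h6, fun ha2 => ?_⟩
    rcases h7 with h7 | ⟨h7, h8⟩
    · rw [← Bool.not_eq_true, nat_blt_iff] at h7
      exact absurd ha2 h7
    · rw [memB_iff] at h7
      refine ⟨h7, fun b hb hc => ?_⟩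
      rw [List.all_eq_true] at h8
      have h9 := h8 b hb
      rw [Bool.or_eq_true, Bool.not_eq_true', ← Bool.not_eq_true, consB_iff, consB_iff] at h9
      rcases h9 with h9 | h9
      · exact absurd hc h9
      · exact h9
  have hbl' : ∀ b, b < bl.length → (∀ a ∈ bl.getD b [], a < P.N ∧ P.block a = b) ∧
      (match bl.getD b [] with
        | [] => true
        | x :: t => P.connB [x] t) = true := by
    intro b hb
    have h0 := hbl b (List.mem_range.2 hb)
    rw [Bool.and_eq_true, List.all_eq_true] at h0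
    refine ⟨fun a ha => ?_, h0.2⟩
    have := h0.1 a ha
    rw [Bool.and_eq_true, nat_blt_iff, nat_beq_iff] at this
    exact this
  refine ⟨fun v hv a ha => ((hl v hv).1 a ha).1, hle, fun v hv => (hl v hv).2.1,
    fun v hv => (hl v hv).2.2, fun v hv hm => ((hl v hv).1 v hm).2.1 rfl,
    fun v w hv hw hm => (((hl v hv).1 w hm).2.2 hw).1, ?_, ?_, ?_⟩
  · intro v w a hv hw hm hc
    refine (((hl v hv).1 w hm).2.2 hw).2 a ?_ hc
    obtain ⟨i, j, hi, hj, h1, h2, -⟩ := hc
    exact h2 ▸ List.getElem_mem hj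
  · intro a b ha hb hab
    have hma := hmem a (List.mem_range.2 ha)
    have hmb := hmem b (List.mem_range.2 hb)
    rw [memB_iff] at hma hmb
    rw [← hab] at hmb
    have hlt : P.block a < bl.length := by
      by_contra hcon
      rw [List.getD_eq_default _ _ (not_lt.1 hcon)] at hma
      simp at hma
    obtain ⟨h1, h2⟩ := hbl' _ hlt
    revert h2
    generalize hL : bl.getD (P.block a) [] = L at *
    intro h2
    cases L with
    | nil => simp at hma
    | cons x t =>
      simp only at h2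
      have hx := h1 x (by simp)
      have key := connB_sound P (P.block a) x t [x] h2
        (by
          intro y hy
          rw [List.mem_singleton] at hy
          subst hy
          exact ⟨hx.1, hx.2, Relation.ReflTransGen.refl⟩)
        (fun y hy => h1 y (List.mem_cons_of_mem _ hy))
      have all : ∀ y ∈ x :: t, Relation.ReflTransGen (Rel P (P.block a)) x y := by
        intro y hy
        rcases List.mem_cons.1 hy with rfl | hy
        · exact Relation.ReflTransGen.refl
        · exact key y hy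
      exact (rtg_symm (all a hma)).trans (all b hmb)
  · obtain ⟨L, hL, h⟩ := hmerge
    rw [Bool.and_eq_true, nat_ble_iff, nodupB_iff] at h
    obtain ⟨i, hi, rfl⟩ := List.getElem_of_mem hL
    obtain ⟨h1, -⟩ := hbl' i hi
    rw [List.getD_eq_getElem _ _ hi] at h1
    obtain ⟨h2, h3⟩ := h
    have e0 := h1 _ (List.getElem_mem (show 0 < (bl[i]).length by omega))
    have e1 := h1 _ (List.getElem_mem (show 1 < (bl[i]).length by omega))
    refine ⟨(bl[i])[0], (bl[i])[1], e0.1, e1.1, ?_, e0.2.trans e1.2.symm⟩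
    intro h
    have := (List.Nodup.getElem_inj_iff h3).1 h
    omega

end StrongArb.H19
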